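import Pool.Agent.Helper92.PU.St

/-! PU MODULE GE2 (project PU, MP_ad0dc2_nt). -/

set_option autoImplicit false

open Finset

namespace Pool.Agent.Helper36.PU

open Pool.Agent.Helper92.PU Pool.Agent.Helper92.PW

private theorem par_of (k : ℤ) (e B c : ℝ) (hk : 1 ≤ |(k : ℝ)|) (he : 0 < e) (he1 : e ≤ 1 / 200)
    (hc : c = 120000000000 * |(k : ℝ)| + 1) (hB5 : c ^ 5 ≤ B) (hBe : c ≤ B ^ (10 * e)) :
    Par2 k B (B ^ (-(3 / 5) : ℝ)) (B ^ (-(9 / 10) - e : ℝ)) := by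
  have hc1 : 1 ≤ c := by rw [hc]; linarith
  have hc0 : 0 < c := by linarith
  have hcc : c ≤ c ^ 5 := le_self_pow₀ hc1 (by norm_num)
  have hBc : c ≤ B := hcc.trans hB5
  have hB1 : 1 ≤ B := hc1.trans hBc
  have hB0 : 0 < B := by linarith
  have hK : 64 * |(k : ℝ)| ≤ c := by rw [hc]; linarith
  have hK2 : 16 * |(k : ℝ)| ≤ c := by rw [hc]; linarith
  refine ⟨hk, hB1, Real.rpow_pos_of_pos hB0 _, ?_, Real.rpow_pos_of_pos hB0 _, ?_, ?_, ?_, ?_, ?_, ?_⟩
  · exact Real.rpow_le_one_of_one_le_of_nonpos hB1 (by norm_num)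
  · exact Real.rpow_le_one_of_one_le_of_nonpos hB1 (by linarith)
  · exact (hK.trans hBc).trans (le_self_pow₀ hB1 (by norm_num))
  · have e1 : (B * B ^ (-(9 / 10) - e : ℝ)) ^ 3 = B ^ (3 / 10 - 3 * e : ℝ) := by
      nth_rewrite 1 [← Real.rpow_one B]
      rw [← Real.rpow_add hB0, ← Real.rpow_natCast, ← Real.rpow_mul hB0.le]
      congr 1
      push_cast
      ring
    rw [e1]
    refine hK2.trans ?_
    calc c = (c ^ 5) ^ (1 / 5 : ℝ) := by
          rw [← Real.rpow_natCast c 5, ← Real.rpow_mul hc0.le]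
          norm_num
      _ ≤ B ^ (1 / 5 : ℝ) := Real.rpow_le_rpow (by positivity) hB5 (by norm_num)
      _ ≤ B ^ (3 / 10 - 3 * e : ℝ) := Real.rpow_le_rpow_of_exponent_le hB1 (by linarith)
  · have e1 : (B ^ (-(3 / 5) : ℝ) * B) ^ 3 = B ^ (6 / 5 : ℝ) := by
      nth_rewrite 2 [← Real.rpow_one B]
      rw [← Real.rpow_add hB0, ← Real.rpow_natCast, ← Real.rpow_mul hB0.le]
      congr 1
      norm_num
    rw [e1]
    refine (hK2.trans hBc).trans ?_
    have := Real.rpow_le_rpow_of_exponent_le hB1 (show (1 : ℝ) ≤ 6 / 5 by norm_num)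
    rwa [Real.rpow_one] at this
  · have e1 : (B ^ (-(9 / 10) - e : ℝ)) ^ 4 * B ^ 3 = B ^ (-(3 / 5) - 4 * e : ℝ) := by
      rw [← Real.rpow_natCast, ← Real.rpow_mul hB0.le, ← Real.rpow_natCast B 3,
        ← Real.rpow_add hB0]
      congr 1
      push_cast
      ring
    rw [e1]
    exact Real.rpow_le_rpow_of_exponent_le hB1 (by linarith)
  · have e1 : B ^ 9 * (B ^ (-(9 / 10) - e : ℝ)) ^ 10 = B ^ (-(10 * e) : ℝ) := by
      rw [← Real.rpow_natCast B 9, ← Real.rpow_natCast, ← Real.rpow_mul hB0.le,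
        ← Real.rpow_add hB0]
      congr 1
      push_cast
      ring
    rw [mul_assoc, e1, Real.rpow_neg hB0.le]
    have e2 : 0 < B ^ (10 * e : ℝ) := Real.rpow_pos_of_pos hB0 _
    rw [← div_eq_mul_inv, div_lt_one e2]
    rw [hc] at hBe
    linarith

/-- MODULE GE2. -/
theorem hGE2 (h1 : StPA2) (h2 : StSG2) : StGE2 := by
  intro k ε' hk hε'
  have hk0 : k ≠ 0 := by
    rintro rfl
    exact hk 0 (by norm_num)
  have hK : 1 ≤ |(k : ℝ)| := by
    have := Int.one_le_abs hk0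
    exact_mod_cast this
  obtain ⟨e, he, he1, hee⟩ : ∃ e : ℝ, 0 < e ∧ e ≤ 1 / 200 ∧ 2 * e ≤ ε' :=
    ⟨min ε' (1 / 100) / 2, by positivity, by
      have := min_le_right ε' (1 / 100)
      linarith, by
      have := min_le_left ε' (1 / 100)
      linarith⟩
  obtain ⟨C, hC, hpat⟩ := h1 k e hk he
  obtain ⟨c, hc⟩ : ∃ c : ℝ, c = 120000000000 * |(k : ℝ)| + 1 := ⟨_, rfl⟩
  have hc1 : 1 ≤ c := by rw [hc]; linarith
  have hc0 : 0 < c := by linarith
  refine ⟨2 * C, max (c ^ 5) (c ^ (1 / (10 * e))), by positivity,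
    le_max_of_le_left (one_le_pow₀ hc1), ?_⟩
  intro B X hB hX S hS
  have hB5 : c ^ 5 ≤ B := (le_max_left _ _).trans hB
  have hBe : c ≤ B ^ (10 * e) := by
    have h3 : c ^ (1 / (10 * e)) ≤ B := (le_max_right _ _).trans hB
    calc c = (c ^ (1 / (10 * e))) ^ (10 * e) := by
          rw [← Real.rpow_mul hc0.le, one_div, inv_mul_cancel₀ (by positivity), Real.rpow_one]
      _ ≤ B ^ (10 * e) := Real.rpow_le_rpow (Real.rpow_nonneg hc0.le _) h3 (by positivity)
  have hP := par_of k e B c hK he he1 hc hB5 hBe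
  have hB1 : 1 ≤ B := hP.B1
  have hB0 : 0 < B := by linarith
  obtain ⟨β, hβ⟩ : ∃ β : ℝ, β = B ^ (-(3 / 5) : ℝ) := ⟨_, rfl⟩
  obtain ⟨l, hl⟩ : ∃ l : ℝ, l = B ^ (-(9 / 10) - e : ℝ) := ⟨_, rfl⟩
  rw [← hβ, ← hl] at hP
  rw [← hβ] at hS
  have hl0 : 0 < l := hP.l0
  have hBl : B * l = B ^ (1 / 10 - e : ℝ) := by
    rw [hl]
    nth_rewrite 1 [← Real.rpow_one B]
    rw [← Real.rpow_add hB0]
    congr 1
    ring
  let f : Pt → ℕ := fun p => ⌊-xi p / l⌋₊
  have hxi : ∀ p ∈ S, 0 ≤ -xi p ∧ -xi p ≤ 2 * X / B := by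
    intro p hp
    have h := (h2 k B β l hP p (hS p hp).1).1
    have hb0 := hP.b0
    have h4 := (hS p hp).1.z_gt
    have h5 := (hS p hp).2
    refine ⟨by linarith [h.2.1], ?_⟩
    have h6 : |xi p| ≤ 2 * X / B := by
      unfold xi
      rw [abs_div]
      calc |(p.1 : ℝ)| / |(p.2.2 : ℝ)| ≤ X / (B / 2) :=
            div_le_div₀ hX h5 (by positivity) h4.le
        _ = 2 * X / B := by
            field_simp
    exact (neg_le_abs _).trans h6
  set N : ℕ := ⌊2 * X / B / l⌋₊ with hN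
  have hf : ∀ p ∈ S, f p ∈ Finset.range (N + 1) := by
    intro p hp
    rw [Finset.mem_range, Nat.lt_succ_iff]
    refine Nat.floor_le_floor ?_
    exact div_le_div_of_nonneg_right (hxi p hp).2 hl0.le
  have hcard := Finset.card_eq_sum_card_fiberwise (f := f) (s := S)
    (t := Finset.range (N + 1)) (fun p hp => by
      have := hf p (by simpa using hp)
      simpa using this)
  have hfib : ∀ j ∈ Finset.range (N + 1),
      ((S.filter fun p => f p = j).card : ℝ) ≤ C * B ^ e := by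
    intro j _
    refine hpat B β l hP _ (fun p hp => (hS p (Finset.mem_filter.mp hp).1).1) ?_
    intro p hp q hq
    obtain ⟨hpS, hpj⟩ := Finset.mem_filter.mp hp
    obtain ⟨hqS, hqj⟩ := Finset.mem_filter.mp hq
    have p0 := (hxi p hpS).1
    have q0 := (hxi q hqS).1
    have a1 : (j : ℝ) ≤ -xi p / l := by
      rw [← hpj]
      exact Nat.floor_le (div_nonneg p0 hl0.le)
    have a2 : -xi p / l < j + 1 := by
      rw [← hpj]
      exact Nat.lt_floor_add_one _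
    have a3 : (j : ℝ) ≤ -xi q / l := by
      rw [← hqj]
      exact Nat.floor_le (div_nonneg q0 hl0.le)
    have a4 : -xi q / l < j + 1 := by
      rw [← hqj]
      exact Nat.lt_floor_add_one _
    have a5 : |(xi p - xi q) / l| ≤ 1 := by
      have e7 : (xi p - xi q) / l = -xi q / l - -xi p / l := by ring
      rw [e7, abs_le]
      constructor <;> linarith
    rw [abs_div, abs_of_pos hl0, div_le_one hl0] at a5
    exact a5
  have hM0 : 0 ≤ C * B ^ e := by positivity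
  have hsum : (S.card : ℝ) ≤ ((N : ℝ) + 1) * (C * B ^ e) := by
    rw [hcard]
    push_cast
    refine le_trans (Finset.sum_le_card_nsmul _ _ (C * B ^ e) hfib) ?_
    rw [Finset.card_range, nsmul_eq_mul]
    push_cast
    exact le_rfl
  have hfl : (N : ℝ) ≤ 2 * X * (B ^ (-(1 / 10) : ℝ) * B ^ e) := by
    refine (Nat.floor_le (by positivity)).trans (le_of_eq ?_)
    rw [div_div, hBl, ← Real.rpow_add hB0, div_eq_mul_inv, ← Real.rpow_neg hB0.le]
    congr 2
    ring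
  have hBe1 : 1 ≤ B ^ e := Real.one_le_rpow hB1 he.le
  have hBe0 : 0 < B ^ e := by linarith
  have h22 : B ^ e * B ^ e ≤ B ^ ε' := by
    rw [← Real.rpow_add hB0]
    exact Real.rpow_le_rpow_of_exponent_le hB1 (by linarith)
  have hfac : (N : ℝ) + 1 ≤ 2 * (X * B ^ (-(1 / 10) : ℝ) + 1) * B ^ e := by
    have e1 : 2 * (X * B ^ (-(1 / 10) : ℝ) + 1) * B ^ e =
        2 * X * (B ^ (-(1 / 10) : ℝ) * B ^ e) + 2 * B ^ e := by ring
    rw [e1]
    linarith
  have hpos : 0 ≤ X * B ^ (-(1 / 10) : ℝ) + 1 := by positivity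
  calc (S.card : ℝ) ≤ ((N : ℝ) + 1) * (C * B ^ e) := hsum
    _ ≤ (2 * (X * B ^ (-(1 / 10) : ℝ) + 1) * B ^ e) * (C * B ^ e) :=
        mul_le_mul_of_nonneg_right hfac hM0
    _ = 2 * C * (X * B ^ (-(1 / 10) : ℝ) + 1) * (B ^ e * B ^ e) := by ring
    _ ≤ 2 * C * (X * B ^ (-(1 / 10) : ℝ) + 1) * B ^ ε' :=
        mul_le_mul_of_nonneg_left h22 (by positivity)

end Pool.Agent.Helper36.PU
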