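import Pool.Agent.Helper92.PU.St

/-! PU MODULE PAR (project PU, MP_ad0dc2_nt). -/

set_option autoImplicit false

namespace Pool.Agent.Helper36.PU

open Pool.Agent.Helper92.PU Pool.Agent.Helper92.PW

private theorem b2_symm (a b c : ℤ) (v w : ℤ × ℤ) : b2 a b c v w = b2 a b c w v := by
  unfold b2
  ring

private theorem core (l : ℤ) (hl : Prime l) (e : ℕ) (a b c p : ℤ) (hp : p ≠ 0)
    (w1 w2 w3 : ℤ × ℤ) (t12 t13 t23 : ℤ) (h12 : dt2 w1 w2 = p * t12) (h13 : dt2 w1 w3 = p * t13)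
    (h23 : dt2 w2 w3 = p * t23) (n12 : ¬ l ∣ t12) (n13 : ¬ l ∣ t13)
    (d1 : l ^ e ∣ q2 a b c w1) (d2 : l ^ e ∣ q2 a b c w2) (d3 : l ^ e ∣ q2 a b c w3) :
    l ^ e ∣ b2 a b c w2 w3 ∧ (l ^ e ∣ b2 a b c w1 w2 ↔ l ^ e ∣ b2 a b c w1 w3) := by
  have c12 : IsCoprime (l ^ e) t12 := ((Prime.coprime_iff_not_dvd hl).2 n12).pow_left
  have c13 : IsCoprime (l ^ e) t13 := ((Prime.coprime_iff_not_dvd hl).2 n13).pow_left
  have I1 : dt2 w1 w3 * b2 a b c w1 w2 =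
      2 * q2 a b c w1 * dt2 w2 w3 + dt2 w1 w2 * b2 a b c w1 w3 := by
    unfold dt2 b2 q2
    ring
  have I2 : dt2 w1 w2 * dt2 w1 w3 * b2 a b c w2 w3 =
      dt2 w1 w3 ^ 2 * q2 a b c w2 + dt2 w1 w2 ^ 2 * q2 a b c w3 -
        dt2 w2 w3 ^ 2 * q2 a b c w1 := by
    unfold dt2 b2 q2
    ring
  rw [h12, h13, h23] at I1 I2
  have J1 : t13 * b2 a b c w1 w2 = 2 * q2 a b c w1 * t23 + t12 * b2 a b c w1 w3 := by
    apply mul_left_cancel₀ hp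
    linear_combination I1
  have J2 : t12 * (t13 * b2 a b c w2 w3) = t13 ^ 2 * q2 a b c w2 + t12 ^ 2 * q2 a b c w3 -
      t23 ^ 2 * q2 a b c w1 := by
    apply mul_left_cancel₀ (pow_ne_zero 2 hp)
    linear_combination I2
  refine ⟨?_, ?_, ?_⟩
  · apply c13.dvd_of_dvd_mul_left
    apply c12.dvd_of_dvd_mul_left
    rw [J2]
    exact ((d2.mul_left _).add (d3.mul_left _)).sub (d1.mul_left _)
  · intro h
    apply c12.dvd_of_dvd_mul_left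
    have e1 : t12 * b2 a b c w1 w3 = t13 * b2 a b c w1 w2 - 2 * t23 * q2 a b c w1 := by
      linear_combination -J1
    rw [e1]
    exact (h.mul_left _).sub (d1.mul_left _)
  · intro h
    apply c13.dvd_of_dvd_mul_left
    rw [J1]
    have e1 : 2 * q2 a b c w1 * t23 = 2 * t23 * q2 a b c w1 := by ring
    rw [e1]
    exact (d1.mul_left _).add (h.mul_left _)

private theorem extr (l : ℕ) (hl : 1 < l) (A B C : ℤ) (h : ¬ (A = 0 ∧ B = 0 ∧ C = 0)) :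
    ∃ (m : ℕ) (s t u : ℤ), A = (l : ℤ) ^ m * s ∧ B = (l : ℤ) ^ m * t ∧ C = (l : ℤ) ^ m * u ∧
      ¬ ((l : ℤ) ∣ s ∧ (l : ℤ) ∣ t ∧ (l : ℤ) ∣ u) := by
  classical
  have key : ∀ X : ℤ, X ≠ 0 → ¬ (l : ℤ) ^ X.natAbs ∣ X := by
    intro X hX hd
    have h1 : l ^ X.natAbs ∣ X.natAbs := by
      have := Int.natAbs_dvd_natAbs.2 hd
      rwa [Int.natAbs_pow, Int.natAbs_natCast] at this
    have h2 := Nat.le_of_dvd (Int.natAbs_pos.2 hX) h1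
    have h3 := Nat.lt_pow_self hl (n := X.natAbs)
    omega
  have hex : ∃ M : ℕ, ¬ ((l : ℤ) ^ M ∣ A ∧ (l : ℤ) ^ M ∣ B ∧ (l : ℤ) ^ M ∣ C) := by
    by_cases hA : A = 0
    · by_cases hB : B = 0
      · have hC : C ≠ 0 := fun hC => h ⟨hA, hB, hC⟩
        exact ⟨C.natAbs, fun hh => key C hC hh.2.2⟩
      · exact ⟨B.natAbs, fun hh => key B hB hh.2.1⟩
    · exact ⟨A.natAbs, fun hh => key A hA hh.1⟩
  have hspec := Nat.find_spec hex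
  have hmin : ∀ m < Nat.find hex, ((l : ℤ) ^ m ∣ A ∧ (l : ℤ) ^ m ∣ B ∧ (l : ℤ) ^ m ∣ C) :=
    fun m hm => not_not.1 (Nat.find_min hex hm)
  have hne : Nat.find hex ≠ 0 := by
    intro h0
    rw [h0] at hspec
    exact hspec ⟨by simp, by simp, by simp⟩
  obtain ⟨m, hm⟩ := Nat.exists_eq_succ_of_ne_zero hne
  obtain ⟨⟨s, hs⟩, ⟨t, ht⟩, ⟨u, hu⟩⟩ := hmin m (by omega)
  refine ⟨m, s, t, u, hs, ht, hu, ?_⟩
  rintro ⟨⟨s', hs'⟩, ⟨t', ht'⟩, ⟨u', hu'⟩⟩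
  apply hspec
  rw [hm, hs, ht, hu, hs', ht', hu', ← mul_assoc, ← mul_assoc, ← mul_assoc, ← pow_succ]
  exact ⟨dvd_mul_right _ _, dvd_mul_right _ _, dvd_mul_right _ _⟩

/-- if `l` divides two of the three numbers it divides the third -/
private theorem third (l p : ℤ) (hp : p ≠ 0) (w1 w2 w3 : ℤ × ℤ) (t12 t13 t23 : ℤ)
    (hc : IsCoprime w3.1 w3.2) (h12 : dt2 w1 w2 = p * t12) (h13 : dt2 w1 w3 = p * t13)
    (h23 : dt2 w2 w3 = p * t23) (n13 : l ∣ t13) (n23 : l ∣ t23) : l ∣ t12 := by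
  obtain ⟨s, t, hst⟩ := hc
  have I1 : dt2 w1 w2 * w3.1 = dt2 w1 w3 * w2.1 - dt2 w2 w3 * w1.1 := by
    unfold dt2
    ring
  have I2 : dt2 w1 w2 * w3.2 = dt2 w1 w3 * w2.2 - dt2 w2 w3 * w1.2 := by
    unfold dt2
    ring
  rw [h12, h13, h23] at I1 I2
  have J1 : t12 * w3.1 = t13 * w2.1 - t23 * w1.1 := by
    apply mul_left_cancel₀ hp
    linear_combination I1
  have J2 : t12 * w3.2 = t13 * w2.2 - t23 * w1.2 := by
    apply mul_left_cancel₀ hp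
    linear_combination I2
  have e1 : t12 = s * (t13 * w2.1 - t23 * w1.1) + t * (t13 * w2.2 - t23 * w1.2) := by
    linear_combination (-t12) * hst + s * J1 + t * J2
  rw [e1]
  exact (((n13.mul_right _).sub (n23.mul_right _)).mul_left _).add
    (((n13.mul_right _).sub (n23.mul_right _)).mul_left _)

private theorem deg (L : ℤ) (a b c : ℤ) (w1 w2 : ℤ × ℤ) (hc : IsCoprime w1.1 w1.2)
    (h : dt2 w1 w2 = 0) (d1 : L ∣ q2 a b c w1) : L ∣ b2 a b c w1 w2 := by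
  obtain ⟨s, t, hst⟩ := hc
  have h' : w1.1 * w2.2 - w1.2 * w2.1 = 0 := h
  have e1 : w2.1 = (s * w2.1 + t * w2.2) * w1.1 := by
    linear_combination (-w2.1) * hst - t * h'
  have e2 : w2.2 = (s * w2.1 + t * w2.2) * w1.2 := by
    linear_combination (-w2.2) * hst + s * h'
  have e3 : b2 a b c w1 w2 = 2 * (s * w2.1 + t * w2.2) * q2 a b c w1 := by
    unfold b2 q2
    linear_combination (2 * a * w1.1 + b * w1.2) * e1 + (b * w1.1 + 2 * c * w1.2) * e2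
  rw [e3]
  exact d1.mul_left _

/-- MODULE PAR. -/
theorem hPAR : StPAR := by
  intro l e hl a b c w1 w2 w3 c1 c2 c3 d1 d2 d3
  have hl1 : 1 < l := hl.one_lt
  have hlp : Prime (l : ℤ) := Nat.prime_iff_prime_int.1 hl
  by_cases h0 : dt2 w1 w2 = 0 ∧ dt2 w1 w3 = 0 ∧ dt2 w2 w3 = 0
  · have e1 := deg _ a b c w1 w2 c1 h0.1 d1
    have e2 := deg _ a b c w1 w3 c1 h0.2.1 d1
    have e3 := deg _ a b c w2 w3 c2 h0.2.2 d2
    exact ⟨fun _ => ⟨fun _ => e2, fun _ => e1⟩, fun _ => e3⟩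
  obtain ⟨m, t12, t13, t23, h12, h13, h23, hn⟩ := extr l hl1 _ _ _ h0
  have hp : (l : ℤ) ^ m ≠ 0 := pow_ne_zero _ hlp.ne_zero
  have s21 : dt2 w2 w1 = (l : ℤ) ^ m * -t12 := by
    have : dt2 w2 w1 = -dt2 w1 w2 := by unfold dt2; ring
    rw [this, h12]; ring
  have s31 : dt2 w3 w1 = (l : ℤ) ^ m * -t13 := by
    have : dt2 w3 w1 = -dt2 w1 w3 := by unfold dt2; ring
    rw [this, h13]; ring
  have s32 : dt2 w3 w2 = (l : ℤ) ^ m * -t23 := by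
    have : dt2 w3 w2 = -dt2 w2 w3 := by unfold dt2; ring
    rw [this, h23]; ring
  have r1 : (l : ℤ) ∣ t13 → (l : ℤ) ∣ t23 → (l : ℤ) ∣ t12 :=
    third l _ hp w1 w2 w3 t12 t13 t23 c3 h12 h13 h23
  have r2 : (l : ℤ) ∣ t12 → (l : ℤ) ∣ t23 → (l : ℤ) ∣ t13 := by
    intro x y
    exact third l _ hp w1 w3 w2 t13 t12 (-t23) c2 h13 h12 s32 x ((dvd_neg).2 y)
  have r3 : (l : ℤ) ∣ t12 → (l : ℤ) ∣ t13 → (l : ℤ) ∣ t23 := by
    intro x y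
    exact third l _ hp w2 w3 w1 t23 (-t12) (-t13) c1 h23 s21 s31 ((dvd_neg).2 x) ((dvd_neg).2 y)
  by_cases n12 : (l : ℤ) ∣ t12
  · -- the other two are not divisible
    have n13 : ¬ (l : ℤ) ∣ t13 := fun h => hn ⟨n12, h, r3 n12 h⟩
    have n23 : ¬ (l : ℤ) ∣ t23 := fun h => hn ⟨n12, r2 n12 h, h⟩
    have k := core (l : ℤ) hlp e a b c _ hp w3 w1 w2 (-t13) (-t23) t12 s31 s32 h12
      (fun h => n13 ((dvd_neg).1 h)) (fun h => n23 ((dvd_neg).1 h)) d3 d1 d2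
    rw [b2_symm a b c w3 w1, b2_symm a b c w3 w2] at k
    exact ⟨fun h => ⟨fun _ => k.2.2 h, fun _ => k.1⟩, fun h => k.2.1 (h.1 k.1)⟩
  · by_cases n13 : (l : ℤ) ∣ t13
    · have n23 : ¬ (l : ℤ) ∣ t23 := fun h => n12 (r1 n13 h)
      have k := core (l : ℤ) hlp e a b c _ hp w2 w1 w3 (-t12) t23 t13 s21 h23 h13
        (fun h => n12 ((dvd_neg).1 h)) n23 d2 d1 d3
      rw [b2_symm a b c w2 w1] at k
      exact ⟨fun h => ⟨fun _ => k.1, fun _ => k.2.2 h⟩, fun h => k.2.1 (h.2 k.1)⟩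
    · have k := core (l : ℤ) hlp e a b c _ hp w1 w2 w3 t12 t13 t23 h12 h13 h23 n12 n13 d1 d2 d3
      exact ⟨fun _ => k.2, fun _ => k.1⟩

end Pool.Agent.Helper36.PU
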